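import Pool.Agent.Lib.MP_db38ce_nt.Caps

/-!
For every `n ≥ 4` there are infinitely many `n`-tuples of pairwise distinct integers larger than
one such that the tuple and its shift by one are both `n`-multiplicatively dependent.
-/

set_option autoImplicit false

namespace Pool.Agent.Results.MP_db38ce_nt.AllFromFour

open Pool.Agent.Lib.MP_db38ce_nt

/-- The tuples asked for. -/
def Good (n : ℕ) (a : Fin n → ℤ) : Prop :=
  Function.Injective a ∧ (∀ i, 1 < a i) ∧ KMultDep n a ∧ KMultDep n (fun i => a i + 1)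

lemma good_of_circuit {ι : Type} [Fintype ι] {n : ℕ} (hn : 4 ≤ n) (hcard : Fintype.card ι = n)
    {x : ι → ℕ} {r s : ι → ℤ} (hx : ∀ i, 1 < x i) (h : Circuit x r)
    (h1 : Circuit (fun i => x i + 1) s) {B : ℕ} (hB : ∃ i, B < x i) :
    ∃ a : Fin n → ℤ, Good n a ∧ ∃ i, (B : ℤ) < a i := by
  obtain f : Fin n ≃ ι := (Fintype.equivFinOfCardEq hcard).symm
  have c0 := h.comp f
  have c1 := h1.comp f
  refine ⟨fun i => (x (f i) : ℤ), ⟨?_, ?_, ?_, ?_⟩, ?_⟩
  · intro i j hij
    have hij' : (x (f i) : ℤ) = x (f j) := hij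
    exact c0.injective (by omega) (by exact_mod_cast hij')
  · intro i
    show (1 : ℤ) < (x (f i) : ℤ)
    exact_mod_cast hx (f i)
  · exact c0.kMultDep (by omega) fun i => by have := hx (f i); omega
  · have := c1.kMultDep (by omega) fun i => by omega
    simpa using this
  · obtain ⟨i, hi⟩ := hB
    exact ⟨f.symm i, by simpa using hi⟩

lemma tup_gt {κ : Type} {cp : κ → ℕ} {w d k K : ℕ} (h : Params w d k K) (hcp : ∀ i, 1 < cp i) :
    ∀ i, 1 < tup cp w d k i := by
  have hw := h.w_pos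
  have hd := h.d_pos
  rintro (i | ((j | (j | j)) | u))
  · exact hcp i
  · show 1 < X d (w + j)
    unfold X
    omega
  · show 1 < cc d (w + j)
    have h1 := G_pos d (w + j)
    unfold cc
    have h2 : 1 * 2 ≤ (w + j) * (w + j + 1) := Nat.mul_le_mul (by omega) (by omega)
    have h3 : 1 * 2 * 1 ≤ (w + j) * (w + j + 1) * G d (w + j) := Nat.mul_le_mul h2 h1
    omega
  · show 1 < zz d (w + j)
    have h1 := G_pos d (w + j)
    have h2 := X_pos d (w + j)
    unfold zz
    have h3 : 2 ^ 2 ≤ (w + j + 1) ^ 2 := Nat.pow_le_pow_left (by omega) 2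
    have h4 : 1 * 1 ≤ G d (w + j) * X d (w + j) := Nat.mul_le_mul h1 h2
    have h5 : 2 ^ 2 * (1 * 1) ≤ (w + j + 1) ^ 2 * (G d (w + j) * X d (w + j)) :=
      Nat.mul_le_mul h3 h4
    omega
  · show 1 < d * (w + k)
    have h2 : 2 * 2 ≤ d * (w + k) := Nat.mul_le_mul hd (by omega)
    omega

lemma exists_good (n : ℕ) (hn : 4 ≤ n) (B : ℕ) :
    ∃ a : Fin n → ℤ, Good n a ∧ ∃ i, (B : ℤ) < a i := by
  have hlast : ∀ {κ : Type} {cp : κ → ℕ} {w d k K : ℕ}, Params w d k K → B < w →
      ∃ i, B < tup cp w d k i := by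
    intro κ cp w d k K h hBw
    refine ⟨Sum.inr (Sum.inr ()), ?_⟩
    show B < d * (w + k)
    have h2 : 1 * w ≤ d * (w + k) := Nat.mul_le_mul (by have := h.d_pos; omega) (by omega)
    omega
  obtain h0 | h1 | h2 : n % 3 = 0 ∨ n % 3 = 1 ∨ n % 3 = 2 := by omega
  · -- five-element cap
    obtain ⟨w, d, K, hBw, hP, h2d, hcP, hcQ⟩ := exists_params ((n - 6) / 3) B
    obtain ⟨c, hc⟩ := h2d
    have hα : d * w = 2 * (c * w) := by rw [hc]; ring
    have hw := hP.w_pos
    have hd := hP.d_pos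
    have hα0 : 0 < c * w := by
      have : 0 < d * w := by positivity
      omega
    refine good_of_circuit hn ?_ (tup_gt hP ?_) (cap5_P hP hcP hα) (cap5_Q hP hcQ hα)
      (hlast hP hBw)
    · simp
      omega
    · intro i
      have h3 : 1 * (1 * 1) ≤
          (8 * (c * w) + 3) * ((36 * (c * w) + 13) * (36 * (c * w) + 11)) :=
        Nat.mul_le_mul (by omega) (Nat.mul_le_mul (by omega) (by omega))
      fin_cases i
      · show 1 < 3 * (c * w)
        omega
      · show 1 < 8 * (c * w) + 3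
        omega
      · show 1 < 36 * (c * w) + 13
        omega
      · show 1 < 2 * (36 * (c * w) + 11)
        omega
      · show 1 < 3 * ((8 * (c * w) + 3) * ((36 * (c * w) + 13) * (36 * (c * w) + 11)))
        omega
  · -- three-element cap
    obtain ⟨w, d, K, hBw, hP, h2d, hcP, hcQ⟩ := exists_params ((n - 4) / 3) B
    have hw := hP.w_pos
    have hd := hP.d_pos
    have hy : 2 * 2 ≤ d * w := Nat.mul_le_mul hd hw
    refine good_of_circuit hn ?_ (tup_gt hP ?_) (cap3_P hP hcP) (cap3_Q hP hcQ)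
      (hlast hP hBw)
    · simp
      omega
    · intro i
      fin_cases i
      · show 1 < 2 * (d * w)
        omega
      · show 1 < 2 * (d * w) * (4 * w * d + 3)
        have : 2 * 1 ≤ 2 * (d * w) * (4 * w * d + 3) := Nat.mul_le_mul (by omega) (by omega)
        omega
      · show 1 < d * w * (4 * w * d + 3) ^ 2
        have h3 : 1 ≤ (4 * w * d + 3) ^ 2 := Nat.one_le_pow _ _ (by omega)
        have : 2 * 1 ≤ d * w * (4 * w * d + 3) ^ 2 := Nat.mul_le_mul (by omega) h3
        omega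
  · -- trivial cap
    obtain ⟨w, d, K, hBw, hP, h2d, hcP, hcQ⟩ := exists_params ((n - 2) / 3) B
    have hw := hP.w_pos
    have hd := hP.d_pos
    have hy : 2 * 2 ≤ d * w := Nat.mul_le_mul hd hw
    refine good_of_circuit hn ?_ (tup_gt hP ?_) (cap1_P hP) (cap1_Q hP)
      (hlast hP hBw)
    · simp
      omega
    · intro i
      show 1 < d * w
      omega

/-- For every `n ≥ 4` there are infinitely many `n`-tuples `(a₁, …, aₙ)` of pairwise distinct
integers larger than one such that `(a₁, …, aₙ)` and `(a₁ + 1, …, aₙ + 1)` are both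
`n`-multiplicatively dependent. -/
theorem result (n : ℕ) (hn : 4 ≤ n) :
    {a : Fin n → ℤ | Function.Injective a ∧ (∀ i, 1 < a i) ∧ KMultDep n a ∧
      KMultDep n (fun i => a i + 1)}.Infinite := by
  intro hfin
  -- a bound for all entries
  obtain ⟨M, hM⟩ : ∃ M : ℕ, ∀ a ∈ {a : Fin n → ℤ | Function.Injective a ∧ (∀ i, 1 < a i) ∧
      KMultDep n a ∧ KMultDep n (fun i => a i + 1)}, ∀ i, a i ≤ M := by
    have hb : (Set.image (fun a : Fin n → ℤ => ∑ i, |a i|)
        {a : Fin n → ℤ | Function.Injective a ∧ (∀ i, 1 < a i) ∧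
      KMultDep n a ∧ KMultDep n (fun i => a i + 1)}).Finite := hfin.image _
    obtain ⟨M, hM⟩ := hb.bddAbove
    refine ⟨M.toNat, fun a ha i => ?_⟩
    have h1 : ∑ i, |a i| ≤ M := hM ⟨a, ha, rfl⟩
    have h2 : |a i| ≤ ∑ i, |a i| :=
      Finset.single_le_sum (f := fun i => |a i|) (fun _ _ => abs_nonneg _) (Finset.mem_univ i)
    have h3 : a i ≤ |a i| := le_abs_self _
    have h4 : M ≤ M.toNat := Int.self_le_toNat M
    linarith
  obtain ⟨a, ha, i, hi⟩ := exists_good n hn M
  exact absurd (hM a ha i) (not_le.mpr hi)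

end Pool.Agent.Results.MP_db38ce_nt.AllFromFour
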